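import Pool.Agent.helper94.AP.SpecB

/-!
# BL1: the sum of the Jacobi symbols of squarefree lower entries
-/

set_option autoImplicit false

namespace Pool.Agent.AP

open Finset Pool.Agent.helper3.FT

theorem BL1_dvd {a b j : ℕ} (hsq : Squarefree a) (hb : 0 < b) (h : j ^ 2 ∣ b ^ 2 * a) : j ∣ b := by
  obtain ⟨j', b', hc, hj, hb'⟩ := Nat.exists_coprime j b
  have hg : 0 < Nat.gcd j b := Nat.gcd_pos_of_pos_right _ hb
  have h1 : j' ^ 2 ∣ b' ^ 2 * a := by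
    have h2 : Nat.gcd j b ^ 2 * j' ^ 2 ∣ Nat.gcd j b ^ 2 * (b' ^ 2 * a) := by
      have e1 : Nat.gcd j b ^ 2 * j' ^ 2 = j ^ 2 := by
        conv_rhs => rw [hj]
        ring
      have e2 : Nat.gcd j b ^ 2 * (b' ^ 2 * a) = b ^ 2 * a := by
        conv_rhs => rw [hb']
        ring
      rw [e1, e2]
      exact h
    exact Nat.dvd_of_mul_dvd_mul_left (pow_pos hg 2) h2
  have h3 : j' ^ 2 ∣ a := Nat.Coprime.dvd_of_dvd_mul_left (Nat.Coprime.pow 2 2 hc) h1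
  have h4 : j' = 1 := Nat.isUnit_iff.1 (hsq j' (by rw [← sq]; exact h3))
  rw [h4, one_mul] at hj
  rw [hj]
  exact Nat.gcd_dvd_right j b

theorem BL1_mob (d N : ℕ) (hd : 0 < d) (hN : d ≤ N) :
    ∑ j ∈ Icc 1 N, (if j ^ 2 ∣ d then ArithmeticFunction.moebius j else 0) =
      if Squarefree d then 1 else 0 := by
  obtain ⟨a, b, ha, hb, hab, hsq⟩ := Nat.sq_mul_squarefree_of_pos hd
  have hbd : b ≤ d := by
    rw [← hab, sq, mul_assoc]
    exact Nat.le_mul_of_pos_right b (Nat.mul_pos hb ha)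
  have h1 : (Icc 1 N).filter (fun j => j ^ 2 ∣ d) = b.divisors := by
    ext j
    rw [mem_filter, mem_Icc, Nat.mem_divisors]
    constructor
    · rintro ⟨-, h2⟩
      rw [← hab] at h2
      exact ⟨BL1_dvd hsq hb h2, hb.ne'⟩
    · rintro ⟨h2, -⟩
      have h3 : 0 < j := Nat.pos_of_dvd_of_pos h2 hb
      have h4 : j ≤ b := Nat.le_of_dvd hb h2
      refine ⟨⟨h3, h4.trans (hbd.trans hN)⟩, ?_⟩
      rw [← hab]
      exact Dvd.dvd.mul_right (pow_dvd_pow_of_dvd h2 2) a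
  rw [← sum_filter, h1, ← ArithmeticFunction.coe_mul_zeta_apply,
    ArithmeticFunction.moebius_mul_coe_zeta, ArithmeticFunction.one_apply]
  by_cases hb1 : b = 1
  · have h2 : Squarefree d := by
      rw [← hab, hb1, one_pow, one_mul]
      exact hsq
    rw [if_pos hb1, if_pos h2]
  · have h2 : ¬ Squarefree d := by
      intro h3
      apply hb1
      refine Nat.isUnit_iff.1 (h3 b ?_)
      rw [← hab, ← sq]
      exact Dvd.intro _ rfl
    rw [if_neg hb1, if_neg h2]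

theorem BL1_abs (a : ℤ) (d : ℕ) : |jacobiSym a d| ≤ 1 := by
  rcases jacobiSym.trichotomy a d with h | h | h <;> rw [h] <;> norm_num

/-- the classes modulo `e₀` -/
theorem BL1_cs (hCS : CS_stmt) (e₀ n k b m : ℕ) (h1 : 1 ≤ e₀) (h2 : 2 ∣ e₀) (hn : 1 ≤ n)
    (hl : ∃ l : ℕ, l.Prime ∧ ¬ l ∣ e₀ ∧ Odd (n.factorization l)) (A B : ℕ) :
    |∑ d ∈ Ioc A B, (if Nat.Coprime d e₀ ∧ m * d * k ≡ b [MOD e₀] then jacobiSym (n : ℤ) d else 0)| ≤
      4 * (n : ℤ) * e₀ := by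
  have hmap : ∀ d ∈ Ioc A B, d % e₀ ∈ range e₀ := fun d _ => mem_range.2 (Nat.mod_lt _ h1)
  rw [← sum_fiberwise_of_maps_to hmap]
  refine (abs_sum_le_sum_abs _ _).trans ?_
  have h3 : ∀ s ∈ range e₀, |∑ d ∈ (Ioc A B).filter (fun d => d % e₀ = s),
      (if Nat.Coprime d e₀ ∧ m * d * k ≡ b [MOD e₀] then jacobiSym (n : ℤ) d else 0)| ≤ 4 * (n : ℤ) := by
    intro s hs
    have hs' : s % e₀ = s := Nat.mod_eq_of_lt (mem_range.1 hs)
    have hmod : ∀ d, d % e₀ = s → d ≡ s [MOD e₀] := fun d hd => by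
      rw [Nat.ModEq, hd, hs']
    by_cases hc : Nat.Coprime s e₀ ∧ m * s * k ≡ b [MOD e₀]
    · have h4 : ∑ d ∈ (Ioc A B).filter (fun d => d % e₀ = s),
          (if Nat.Coprime d e₀ ∧ m * d * k ≡ b [MOD e₀] then jacobiSym (n : ℤ) d else 0) =
          ∑ d ∈ (Ioc A B).filter (fun d => d ≡ s [MOD e₀]), jacobiSym (n : ℤ) d := by
        have h5 : (Ioc A B).filter (fun d => d % e₀ = s) = (Ioc A B).filter (fun d => d ≡ s [MOD e₀]) := by
          refine filter_congr fun d _ => ?_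
          rw [Nat.ModEq, hs']
        rw [h5]
        refine sum_congr rfl fun d hd => ?_
        have h6 := (mem_filter.1 hd).2
        rw [if_pos]
        refine ⟨?_, ?_⟩
        · have h7 := h6.gcd_eq
          rw [Nat.Coprime, h7]
          exact hc.1
        · exact ((h6.mul_left m).mul_right k).trans hc.2
      rw [h4]
      exact hCS e₀ n s h1 h2 hn hc.1 hl A B
    · have h4 : ∑ d ∈ (Ioc A B).filter (fun d => d % e₀ = s),
          (if Nat.Coprime d e₀ ∧ m * d * k ≡ b [MOD e₀] then jacobiSym (n : ℤ) d else 0) = 0 := by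
        refine sum_eq_zero fun d hd => ?_
        have h6 := hmod d (mem_filter.1 hd).2
        rw [if_neg]
        rintro ⟨h7, h8⟩
        apply hc
        refine ⟨?_, ?_⟩
        · have h9 := h6.gcd_eq
          rw [Nat.Coprime, ← h9]
          exact h7
        · exact ((h6.mul_left m).mul_right k).symm.trans h8
      rw [h4, abs_zero]
      positivity
  refine (sum_le_sum h3).trans ?_
  rw [sum_const, card_range, nsmul_eq_mul]
  exact le_of_eq (mul_comm _ _)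

theorem BL1_triv (e₀ n k b m A B : ℕ) :
    |∑ d ∈ Ioc A B, (if Nat.Coprime d e₀ ∧ m * d * k ≡ b [MOD e₀] then jacobiSym (n : ℤ) d else 0)| ≤
      (B : ℤ) := by
  refine (abs_sum_le_sum_abs _ _).trans ?_
  have h3 : ∀ d ∈ Ioc A B,
      |if Nat.Coprime d e₀ ∧ m * d * k ≡ b [MOD e₀] then jacobiSym (n : ℤ) d else 0| ≤ 1 := by
    intro d _
    split_ifs
    · exact BL1_abs _ _
    · rw [abs_zero]; exact zero_le_one
  refine (sum_le_sum h3).trans ?_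
  rw [sum_const, Nat.card_Ioc, nsmul_eq_mul, mul_one]
  exact_mod_cast Nat.sub_le B A

/-- multiples of `j ^ 2` -/
theorem BL1_in (e₀ n k b j : ℕ) (hj : 1 ≤ j) (D₁ D₂ : ℕ) :
    ∑ d ∈ (Ioc D₁ D₂).filter (fun d => j ^ 2 ∣ d),
      (if Nat.Coprime d e₀ ∧ d * k ≡ b [MOD e₀] then jacobiSym (n : ℤ) d else 0) =
    ((if Nat.Coprime j e₀ then 1 else 0) * jacobiSym (n : ℤ) j ^ 2) *
      ∑ d ∈ Ioc (D₁ / j ^ 2) (D₂ / j ^ 2),
        (if Nat.Coprime d e₀ ∧ j ^ 2 * d * k ≡ b [MOD e₀] then jacobiSym (n : ℤ) d else 0) := by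
  have hj2 : 0 < j ^ 2 := pow_pos hj 2
  have h1 : (Ioc D₁ D₂).filter (fun d => j ^ 2 ∣ d) = (Ioc (D₁ / j ^ 2) (D₂ / j ^ 2)).image (fun d => j ^ 2 * d) := by
    ext d
    rw [mem_filter, mem_image, mem_Ioc]
    constructor
    · rintro ⟨⟨ha, hb⟩, c, rfl⟩
      refine ⟨c, mem_Ioc.2 ⟨?_, ?_⟩, rfl⟩
      · rw [Nat.div_lt_iff_lt_mul hj2, mul_comm]
        exact ha
      · rw [Nat.le_div_iff_mul_le hj2, mul_comm]
        exact hb
    · rintro ⟨c, hc, rfl⟩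
      have hc' := mem_Ioc.1 hc
      refine ⟨⟨?_, ?_⟩, Dvd.intro _ rfl⟩
      · rw [mul_comm, ← Nat.div_lt_iff_lt_mul hj2]
        exact hc'.1
      · rw [mul_comm, ← Nat.le_div_iff_mul_le hj2]
        exact hc'.2
  rw [h1, sum_image fun x _ y _ h => Nat.eq_of_mul_eq_mul_left hj2 h, mul_sum]
  refine sum_congr rfl fun d hd => ?_
  have hd0 : d ≠ 0 := (lt_of_le_of_lt (Nat.zero_le _) (mem_Ioc.1 hd).1).ne'
  have h2 : jacobiSym (n : ℤ) (j ^ 2 * d) = jacobiSym (n : ℤ) j ^ 2 * jacobiSym (n : ℤ) d := by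
    rw [jacobiSym.mul_right' _ hj2.ne' hd0, jacobiSym.pow_right]
  by_cases hje : Nat.Coprime j e₀
  · have h3 : Nat.Coprime (j ^ 2 * d) e₀ ↔ Nat.Coprime d e₀ := by
      rw [Nat.coprime_mul_iff_left]
      exact ⟨fun h => h.2, fun h => ⟨Nat.Coprime.pow_left 2 hje, h⟩⟩
    rw [if_pos hje, one_mul]
    by_cases hc : Nat.Coprime d e₀ ∧ j ^ 2 * d * k ≡ b [MOD e₀]
    · rw [if_pos ⟨h3.2 hc.1, hc.2⟩, if_pos hc, h2]
    · rw [if_neg (fun h => hc ⟨h3.1 h.1, h.2⟩), if_neg hc, mul_zero]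
  · have h3 : ¬ Nat.Coprime (j ^ 2 * d) e₀ := by
      intro h4
      apply hje
      have h5 := (Nat.coprime_mul_iff_left.1 h4).1
      exact Nat.Coprime.coprime_dvd_left (Dvd.intro_left (j ^ (2 - 1)) (by rw [← pow_succ])) h5
    rw [if_neg hje, zero_mul, zero_mul, if_neg]
    exact fun h => h3 h.1

theorem BL1_inv (n X R : ℝ) (hR : R ^ 2 = n * X) (hR0 : 0 < R) : X / (R / n) = R := by
  rw [div_div_eq_mul_div, div_eq_iff hR0.ne', mul_comm X n, ← hR, sq]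

theorem BL1 (hCS : CS_stmt) : BL1_stmt := by
  classical
  intro e₀ n k b h1 h2 hn hl D₁ D₂ X hX hD
  have he : (1 : ℝ) ≤ e₀ := by exact_mod_cast h1
  have hn1 : (1 : ℝ) ≤ n := by exact_mod_cast hn
  have hn0 : (0 : ℝ) < n := by linarith
  have hX0 : (0 : ℝ) < X := by linarith
  obtain ⟨R, hRd⟩ : ∃ R : ℝ, R = √((n : ℝ) * X) := ⟨_, rfl⟩
  rw [← hRd]
  have hR2 : R ^ 2 = n * X := by
    rw [hRd]
    exact Real.sq_sqrt (by positivity)
  have hR0 : 0 < R := by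
    rw [hRd]
    exact Real.sqrt_pos.2 (by positivity)
  obtain ⟨T, hT⟩ : ∃ T : ℕ → ℤ, ∀ j, T j = ∑ d ∈ (Ioc D₁ D₂).filter (fun d => j ^ 2 ∣ d),
      (if Nat.Coprime d e₀ ∧ d * k ≡ b [MOD e₀] then jacobiSym (n : ℤ) d else 0) := ⟨_, fun _ => rfl⟩
  have hS : ∑ d ∈ (Ioc D₁ D₂).filter (fun d => Squarefree d ∧ Nat.Coprime d e₀ ∧ d * k ≡ b [MOD e₀]),
      jacobiSym (n : ℤ) d = ∑ j ∈ Icc 1 D₂, ArithmeticFunction.moebius j * T j := by
    rw [sum_filter]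
    have h3 : ∀ d ∈ Ioc D₁ D₂, (if Squarefree d ∧ Nat.Coprime d e₀ ∧ d * k ≡ b [MOD e₀] then
        jacobiSym (n : ℤ) d else 0) = ∑ j ∈ Icc 1 D₂, (if j ^ 2 ∣ d then ArithmeticFunction.moebius j else 0) *
          (if Nat.Coprime d e₀ ∧ d * k ≡ b [MOD e₀] then jacobiSym (n : ℤ) d else 0) := by
      intro d hd
      have hd' := mem_Ioc.1 hd
      rw [← sum_mul, BL1_mob d D₂ (by omega) hd'.2]
      by_cases hs : Squarefree d
      · by_cases hc : Nat.Coprime d e₀ ∧ d * k ≡ b [MOD e₀]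
        · rw [if_pos ⟨hs, hc⟩, if_pos hs, if_pos hc, one_mul]
        · rw [if_neg (fun h => hc h.2), if_pos hs, if_neg hc, mul_zero]
      · rw [if_neg (fun h => hs h.1), if_neg hs, zero_mul]
    rw [sum_congr rfl h3, sum_comm]
    refine sum_congr rfl fun j _ => ?_
    rw [hT, sum_filter, mul_sum]
    refine sum_congr rfl fun d _ => ?_
    by_cases hjd : j ^ 2 ∣ d
    · rw [if_pos hjd, if_pos hjd]
    · rw [if_neg hjd, if_neg hjd, zero_mul, mul_zero]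
  have hc1 : ∀ j : ℕ, |(if Nat.Coprime j e₀ then (1 : ℤ) else 0) * jacobiSym (n : ℤ) j ^ 2| ≤ 1 := by
    intro j
    rw [abs_mul, abs_pow]
    have h3 : |(if Nat.Coprime j e₀ then (1 : ℤ) else 0)| ≤ 1 := by
      split_ifs <;> simp
    have h4 : |jacobiSym (n : ℤ) j| ^ 2 ≤ 1 := pow_le_one₀ (abs_nonneg _) (BL1_abs _ _)
    exact mul_le_one₀ h3 (by positivity) h4
  have hT1 : ∀ j : ℕ, 1 ≤ j → |(T j : ℝ)| ≤ 4 * n * e₀ := by
    intro j hj
    have h3 : |T j| ≤ 4 * (n : ℤ) * e₀ := by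
      rw [hT, BL1_in e₀ n k b j hj, abs_mul]
      refine (mul_le_of_le_one_left (abs_nonneg _) (hc1 j)).trans ?_
      exact BL1_cs hCS e₀ n k b (j ^ 2) h1 h2 hn hl _ _
    have h4 : ((|T j| : ℤ) : ℝ) ≤ ((4 * (n : ℤ) * e₀ : ℤ) : ℝ) := by exact_mod_cast h3
    rw [Int.cast_abs] at h4
    push_cast at h4
    exact h4
  have hT2 : ∀ j : ℕ, 1 ≤ j → |(T j : ℝ)| ≤ X / (j : ℝ) ^ 2 := by
    intro j hj
    have h3 : |T j| ≤ ((D₂ / j ^ 2 : ℕ) : ℤ) := by
      rw [hT, BL1_in e₀ n k b j hj, abs_mul]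
      refine (mul_le_of_le_one_left (abs_nonneg _) (hc1 j)).trans ?_
      exact BL1_triv e₀ n k b (j ^ 2) _ _
    have h4 : ((|T j| : ℤ) : ℝ) ≤ (((D₂ / j ^ 2 : ℕ) : ℤ) : ℝ) := by exact_mod_cast h3
    rw [Int.cast_abs] at h4
    have h5 : (((D₂ / j ^ 2 : ℕ) : ℤ) : ℝ) ≤ (D₂ : ℝ) / (j : ℝ) ^ 2 := by
      have := Nat.cast_div_le (α := ℝ) (m := D₂) (n := j ^ 2)
      push_cast at this ⊢
      exact this
    refine h4.trans (h5.trans ?_)
    exact div_le_div_of_nonneg_right hD (by positivity)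
  have hS2 : |((∑ d ∈ (Ioc D₁ D₂).filter (fun d => Squarefree d ∧ Nat.Coprime d e₀ ∧ d * k ≡ b [MOD e₀]),
      jacobiSym (n : ℤ) d : ℤ) : ℝ)| ≤ ∑ j ∈ Icc 1 D₂, |(T j : ℝ)| := by
    rw [hS]
    push_cast
    refine (abs_sum_le_sum_abs _ _).trans (sum_le_sum fun j _ => ?_)
    rw [abs_mul]
    have h3 : |((ArithmeticFunction.moebius j : ℤ) : ℝ)| ≤ 1 := by
      have h4 := ArithmeticFunction.abs_moebius_le_one (n := j)
      rw [← Int.cast_abs]
      exact_mod_cast h4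
    exact mul_le_of_le_one_left (abs_nonneg _) h3
  rcases le_or_gt (n : ℝ) X with hnX | hnX
  · -- the range of large `X`
    have hRn : (n : ℝ) ≤ R := by
      refine le_of_sq_le_sq ?_ hR0.le
      rw [hR2, sq]
      exact mul_le_mul_of_nonneg_left hnX hn0.le
    have hJ1 : 1 ≤ R / n := (one_le_div hn0).2 hRn
    obtain ⟨J, hJ⟩ : ∃ J : ℕ, J = ⌊R / n⌋₊ := ⟨_, rfl⟩
    have hJ0 : 1 ≤ J := by
      rw [hJ]
      exact Nat.le_floor (by exact_mod_cast hJ1)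
    have hJR : (J : ℝ) ≤ R / n := by
      rw [hJ]
      exact Nat.floor_le (by positivity)
    have hJR2 : R / n ≤ 2 * J := by
      have h3 := Nat.lt_floor_add_one (R / n)
      rw [← hJ] at h3
      have h4 : (1 : ℝ) ≤ J := by exact_mod_cast hJ0
      linarith
    have hJpos : (0 : ℝ) < J := by exact_mod_cast hJ0
    have hsplit : ∑ j ∈ Icc 1 D₂, |(T j : ℝ)| ≤
        ∑ j ∈ Icc 1 J, |(T j : ℝ)| + ∑ j ∈ Ioc J D₂, |(T j : ℝ)| := by
      rw [← sum_filter_add_sum_filter_not (Icc 1 D₂) (fun j => j ≤ J)]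
      refine add_le_add (sum_le_sum_of_subset_of_nonneg ?_ fun _ _ _ => abs_nonneg _)
        (sum_le_sum_of_subset_of_nonneg ?_ fun _ _ _ => abs_nonneg _)
      · intro j hj
        rw [mem_filter, mem_Icc] at hj
        exact mem_Icc.2 ⟨hj.1.1, hj.2⟩
      · intro j hj
        rw [mem_filter, mem_Icc] at hj
        exact mem_Ioc.2 ⟨not_le.1 hj.2, hj.1.2⟩
    have hA : ∑ j ∈ Icc 1 J, |(T j : ℝ)| ≤ 4 * e₀ * R := by
      have h3 : ∑ j ∈ Icc 1 J, |(T j : ℝ)| ≤ ∑ j ∈ Icc 1 J, (4 * n * e₀ : ℝ) :=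
        sum_le_sum fun j hj => hT1 j (mem_Icc.1 hj).1
      rw [sum_const, Nat.card_Icc, nsmul_eq_mul, Nat.add_sub_cancel] at h3
      refine h3.trans ?_
      have h4 : (J : ℝ) * n ≤ R := by
        rw [le_div_iff₀ hn0] at hJR
        exact hJR
      calc (J : ℝ) * (4 * n * e₀) = (4 * e₀) * (J * n) := by ring
        _ ≤ (4 * e₀) * R := mul_le_mul_of_nonneg_left h4 (by positivity)
        _ = 4 * e₀ * R := rfl
    have hB : ∑ j ∈ Ioc J D₂, |(T j : ℝ)| ≤ 2 * R := by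
      have h3 : ∑ j ∈ Ioc J D₂, |(T j : ℝ)| ≤ X * ∑ j ∈ Ioc J D₂, ((j : ℝ) ^ 2)⁻¹ := by
        rw [mul_sum]
        refine sum_le_sum fun j hj => ?_
        have := hT2 j (by have := (mem_Ioc.1 hj).1; omega)
        rwa [div_eq_mul_inv] at this
      refine h3.trans ?_
      have h4 : ∑ j ∈ Ioc J D₂, ((j : ℝ) ^ 2)⁻¹ ≤ (J : ℝ)⁻¹ := by
        rcases le_or_gt J D₂ with h5 | h5
        · have h6 := sum_Ioc_inv_sq_le_sub (α := ℝ) (k := J) (n := D₂) (by omega) h5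
          have h7 : (0 : ℝ) ≤ (D₂ : ℝ)⁻¹ := by positivity
          linarith
        · rw [Ioc_eq_empty (by omega), sum_empty]
          positivity
      have h5 : X * ∑ j ∈ Ioc J D₂, ((j : ℝ) ^ 2)⁻¹ ≤ X * (J : ℝ)⁻¹ := mul_le_mul_of_nonneg_left h4 hX0.le
      refine h5.trans ?_
      have h6 := BL1_inv n X R hR2 hR0
      rw [← h6, ← div_eq_mul_inv, div_le_iff₀ hJpos]
      have h7 : 0 < R / n := by positivity
      have h8 : X = X / (R / n) * (R / n) := by field_simp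
      calc X = X / (R / n) * (R / n) := h8
        _ ≤ X / (R / n) * (2 * J) := mul_le_mul_of_nonneg_left hJR2 (by positivity)
        _ = 2 * (X / (R / n)) * J := by ring
    have h9 : (2 : ℝ) * R ≤ 5 * e₀ * R := by
      have h10 : (2 : ℝ) ≤ 5 * e₀ := by linarith
      exact mul_le_mul_of_nonneg_right h10 hR0.le
    calc _ ≤ ∑ j ∈ Icc 1 D₂, |(T j : ℝ)| := hS2
      _ ≤ 4 * e₀ * R + 2 * R := hsplit.trans (add_le_add hA hB)
      _ ≤ 4 * e₀ * R + 5 * e₀ * R := by linarith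
      _ = 9 * e₀ * R := by ring
  · -- the trivial bound
    have h3 : |((∑ d ∈ (Ioc D₁ D₂).filter (fun d => Squarefree d ∧ Nat.Coprime d e₀ ∧ d * k ≡ b [MOD e₀]),
        jacobiSym (n : ℤ) d : ℤ) : ℝ)| ≤ (D₂ : ℝ) := by
      push_cast
      refine (abs_sum_le_sum_abs _ _).trans ?_
      have h4 : ∀ d ∈ (Ioc D₁ D₂).filter (fun d => Squarefree d ∧ Nat.Coprime d e₀ ∧ d * k ≡ b [MOD e₀]),
          |((jacobiSym (n : ℤ) d : ℤ) : ℝ)| ≤ 1 := by
        intro d _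
        rw [← Int.cast_abs]
        exact_mod_cast BL1_abs _ _
      refine (sum_le_sum h4).trans ?_
      rw [sum_const, nsmul_eq_mul, mul_one]
      have h5 : ((Ioc D₁ D₂).filter (fun d => Squarefree d ∧ Nat.Coprime d e₀ ∧ d * k ≡ b [MOD e₀])).card ≤ D₂ := by
        refine (card_filter_le _ _).trans ?_
        rw [Nat.card_Ioc]
        exact Nat.sub_le _ _
      exact_mod_cast h5
    have h4 : X ≤ R := by
      refine le_of_sq_le_sq ?_ hR0.le
      rw [hR2, sq]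
      exact mul_le_mul_of_nonneg_right hnX.le hX0.le
    have h5 : R ≤ 9 * e₀ * R := by
      have h6 : (1 : ℝ) ≤ 9 * e₀ := by linarith
      calc R = 1 * R := (one_mul R).symm
        _ ≤ 9 * e₀ * R := mul_le_mul_of_nonneg_right h6 hR0.le
    exact h3.trans (hD.trans (h4.trans h5))

end Pool.Agent.AP
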